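import Pool.Agent.Helper79.HB.Defs

/-!
# BLOCK HB-1: edges and connectedness

`edge_two`: every edge lies in exactly two triangles (this is `hS.edge`).

`card_edges`: double counting of the pairs (edge, triangle): every triangle has 3 edges
(`Finset.card_powersetCard`), every edge lies in exactly two triangles.

`deg_eq`: the degree (number of triangles at `v`) is the number of edges at `v`: double counting of
the pairs `(e, t)` with `v ∈ e ⊆ t`: every triangle `t ∋ v` contains exactly two such `e`, every
edge lies in exactly two triangles.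

`vconn`: the triangles meeting `S` form a set `A` (nonempty as `S` is nonempty, contained in `T`);
every triangle of `A` is contained in `S` by hypothesis; if `s ∈ A`, `t ∈ T`, `(s ∩ t).card = 2`,
then `t` meets `s ⊆ S`, hence `t ∈ A`.  So `A = T` by `hS.conn` and all vertices are in `S`.
-/

namespace Pool.Agent.Helper79.HB

open Finset Pool.Agent.Helper79.HX

theorem edge_two {T : Finset (Finset ℕ)} (hS : IsSphere T) {e : Finset ℕ} (he : e ∈ edges T) :
    (T.filter (fun s => e ⊆ s)).card = 2 := by
  obtain ⟨t, ht, h1, h2⟩ := mem_edges.1 he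
  exact hS.edge t ht e h1 h2

theorem card_edges {T : Finset (Finset ℕ)} (hS : IsSphere T) :
    2 * (edges T).card = 3 * T.card := by
  have h1 : ∑ e ∈ edges T, ∑ t ∈ T, (if e ⊆ t then 1 else 0) = 2 * (edges T).card := by
    have h2 : ∀ e ∈ edges T, ∑ t ∈ T, (if e ⊆ t then 1 else 0) = 2 := fun e he => by
      rw [← Finset.card_filter, edge_two hS he]
    rw [Finset.sum_congr rfl h2, Finset.sum_const, smul_eq_mul, mul_comm]
  have h3 : ∀ t ∈ T, ∑ e ∈ edges T, (if e ⊆ t then 1 else 0) = 3 := fun t ht => by
    have h4 : (edges T).filter (fun e => e ⊆ t) = t.powersetCard 2 := by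
      ext e
      simp only [Finset.mem_filter, mem_edges, Finset.mem_powersetCard]
      constructor
      · rintro ⟨⟨_, _, _, h5⟩, h6⟩
        exact ⟨h6, h5⟩
      · rintro ⟨h5, h6⟩
        exact ⟨⟨t, ht, h5, h6⟩, h5⟩
    rw [← Finset.card_filter, h4, Finset.card_powersetCard, hS.tri t ht]
    rfl
  rw [← h1, Finset.sum_comm, Finset.sum_congr rfl h3, Finset.sum_const, smul_eq_mul, mul_comm]

theorem deg_eq {T : Finset (Finset ℕ)} (hS : IsSphere T) {v : ℕ} (hv : v ∈ verts T) :
    deg T v = ((edges T).filter (fun e => v ∈ e)).card := by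
  have h1 : ∑ e ∈ (edges T).filter (fun e => v ∈ e), ∑ t ∈ T, (if e ⊆ t then 1 else 0) =
      2 * ((edges T).filter (fun e => v ∈ e)).card := by
    have h2 : ∀ e ∈ (edges T).filter (fun e => v ∈ e), ∑ t ∈ T, (if e ⊆ t then 1 else 0) = 2 := fun e he => by
      rw [← Finset.card_filter, edge_two hS (Finset.mem_filter.1 he).1]
    rw [Finset.sum_congr rfl h2, Finset.sum_const, smul_eq_mul, mul_comm]
  have h3 : ∀ t ∈ T, ∑ e ∈ (edges T).filter (fun e => v ∈ e), (if e ⊆ t then 1 else 0) =
      if v ∈ t then 2 else 0 := fun t ht => by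
    rw [← Finset.card_filter, Finset.filter_filter]
    split_ifs with hvt
    · have h4 : (edges T).filter (fun e => v ∈ e ∧ e ⊆ t) = (t.erase v).image (fun x => {v, x}) := by
        ext e
        simp only [Finset.mem_filter, mem_edges, Finset.mem_image, Finset.mem_erase]
        constructor
        · rintro ⟨⟨_, _, _, h5⟩, h6, h7⟩
          obtain ⟨x, hx⟩ := Finset.card_eq_one.1 (show (e.erase v).card = 1 by
            rw [Finset.card_erase_of_mem h6, h5])
          have hx1 : x ∈ e.erase v := by rw [hx]; exact Finset.mem_singleton_self x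
          rw [Finset.mem_erase] at hx1
          exact ⟨x, ⟨hx1.1, h7 hx1.2⟩, by rw [← hx, Finset.insert_erase h6]⟩
        · rintro ⟨x, ⟨h5, h6⟩, rfl⟩
          have h7 : ({v, x} : Finset ℕ) ⊆ t := by
            intro z hz
            rw [Finset.mem_insert, Finset.mem_singleton] at hz
            rcases hz with rfl | rfl
            · exact hvt
            · exact h6
          exact ⟨⟨t, ht, h7, Finset.card_pair h5.symm⟩, Finset.mem_insert_self _ _, h7⟩
      rw [h4, Finset.card_image_of_injOn, Finset.card_erase_of_mem hvt, hS.tri t ht]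
      intro x hx y hy hxy
      have hx1 := (Finset.mem_erase.1 (Finset.mem_coe.1 hx)).1
      have h5 : x ∈ ({v, y} : Finset ℕ) := by
        have h6 : ({v, x} : Finset ℕ) = {v, y} := hxy
        rw [← h6]
        exact Finset.mem_insert_of_mem (Finset.mem_singleton_self x)
      rw [Finset.mem_insert, Finset.mem_singleton] at h5
      exact h5.resolve_left hx1
    · rw [Finset.card_eq_zero, Finset.filter_eq_empty_iff]
      rintro e _ ⟨h5, h6⟩
      exact hvt (h6 h5)
  rw [Finset.sum_comm, Finset.sum_congr rfl h3, ← Finset.sum_filter, Finset.sum_const, smul_eq_mul] at h1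
  have h5 : deg T v = (T.filter (fun t => v ∈ t)).card := rfl
  omega

theorem vconn {T : Finset (Finset ℕ)} (hS : IsSphere T) {S : Finset ℕ} (hsub : S ⊆ verts T)
    (hne : S.Nonempty) (hcl : ∀ t ∈ T, ∀ v ∈ t, v ∈ S → t ⊆ S) : S = verts T := by
  have hA : T.filter (fun t => ∃ v ∈ t, v ∈ S) = T := by
    refine hS.conn _ (Finset.filter_subset _ _) ?_ ?_
    · obtain ⟨v, hv⟩ := hne
      obtain ⟨t, ht, hvt⟩ := mem_verts.1 (hsub hv)
      exact ⟨t, Finset.mem_filter.2 ⟨ht, v, hvt, hv⟩⟩
    · intro s hs t ht hst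
      obtain ⟨hsT, v, hvs, hvS⟩ := Finset.mem_filter.1 hs
      obtain ⟨w, hw⟩ : (s ∩ t).Nonempty := by
        rw [← Finset.card_pos]
        omega
      rw [Finset.mem_inter] at hw
      exact Finset.mem_filter.2 ⟨ht, w, hw.2, hcl s hsT v hvs hvS hw.1⟩
  refine Finset.Subset.antisymm hsub fun v hv => ?_
  obtain ⟨t, ht, hvt⟩ := mem_verts.1 hv
  rw [← hA] at ht
  obtain ⟨htT, w, hwt, hwS⟩ := Finset.mem_filter.1 ht
  exact hcl t htT w hwt hwS hvt

end Pool.Agent.Helper79.HB
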