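import Pool.Agent.Helper79.HB.B1

/-!
# BLOCK HB-2: the kernels

`ker2`: let `g` be in the kernel of `M2`.  For an edge `e` the two triangles `s, t ⊇ e` satisfy
`g s + g t = 0`, that is `g s = g t` (characteristic 2).  The set of the triangles `s` with
`g s = g t0` is closed under adjacency `(s ∩ t).card = 2` (then `e = s ∩ t` is an edge and, since
exactly two triangles contain it, these are `s` and `t` (`s ≠ t` as `s.card = 3`)), so it is all of
`T` by `hS.conn`.

`ker1`: let `f` be in the kernel of the transpose of `M1`; for an edge `{u, v}` this says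
`f u + f v = 0`, that is `f u = f v`.  The set of the vertices with `f v = f u0` is closed in the
sense of `vconn`, as any two vertices of a triangle form an edge.
-/

namespace Pool.Agent.Helper79.HB

open Finset Pool.Agent.Helper79.HX

private theorem adj88 {T : Finset (Finset ℕ)} (hS : IsSphere T) (g : T → ZMod 2)
    (hg : (M2 T).mulVec g = 0) {s t : Finset ℕ} (hs : s ∈ T) (ht : t ∈ T)
    (hst : (s ∩ t).card = 2) : g ⟨s, hs⟩ = g ⟨t, ht⟩ := by
  classical
  have hne : s ≠ t := by
    rintro rfl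
    rw [Finset.inter_self, hS.tri s hs] at hst
    omega
  have he : s ∩ t ∈ edges T := mem_edges.2 ⟨s, hs, Finset.inter_subset_left, hst⟩
  have hf : T.filter (fun u => s ∩ t ⊆ u) = {s, t} := by
    symm
    refine Finset.eq_of_subset_of_card_le ?_ ?_
    · intro x hx
      rw [Finset.mem_insert, Finset.mem_singleton] at hx
      rw [Finset.mem_filter]
      rcases hx with rfl | rfl
      · exact ⟨hs, Finset.inter_subset_left⟩
      · exact ⟨ht, Finset.inter_subset_right⟩
    · rw [edge_two hS he, Finset.card_pair hne]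
  have h := congrFun hg ⟨s ∩ t, he⟩
  have h2 : ∑ u : T, (if s ∩ t ⊆ (u : Finset ℕ) then (1 : ZMod 2) else 0) * g u = 0 := h
  rw [Finset.sum_eq_add (⟨s, hs⟩ : T) (⟨t, ht⟩ : T)
    (fun hh => hne (congrArg Subtype.val hh))] at h2
  · rw [if_pos Finset.inter_subset_left, if_pos Finset.inter_subset_right, one_mul, one_mul] at h2
    exact CharTwo.add_eq_zero.1 h2
  · rintro ⟨c, hc⟩ _ ⟨h3, h4⟩
    rw [if_neg, zero_mul]
    intro hsub
    have : c ∈ T.filter (fun u => s ∩ t ⊆ u) := Finset.mem_filter.2 ⟨hc, hsub⟩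
    rw [hf, Finset.mem_insert, Finset.mem_singleton] at this
    rcases this with rfl | rfl
    · exact h3 rfl
    · exact h4 rfl
  · intro hh; exact absurd (Finset.mem_univ _) hh
  · intro hh; exact absurd (Finset.mem_univ _) hh

theorem ker2 {T : Finset (Finset ℕ)} (hS : IsSphere T) (g : T → ZMod 2)
    (hg : (M2 T).mulVec g = 0) (s t : T) : g s = g t := by
  classical
  have hA := hS.conn (T.filter (fun u => ∃ h : u ∈ T, g ⟨u, h⟩ = g t))
    (Finset.filter_subset _ _) ⟨t, Finset.mem_filter.2 ⟨t.2, t.2, rfl⟩⟩ (by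
      intro u hu w hw huw
      rw [Finset.mem_filter] at hu ⊢
      obtain ⟨_, hu, h1⟩ := hu
      exact ⟨hw, hw, by rw [← adj88 hS g hg hu hw huw, h1]⟩)
  have h1 : (s : Finset ℕ) ∈ T.filter (fun u => ∃ h : u ∈ T, g ⟨u, h⟩ = g t) := by
    rw [hA]; exact s.2
  obtain ⟨_, _, h2⟩ := Finset.mem_filter.1 h1
  exact h2

private theorem adjv88 {T : Finset (Finset ℕ)} (f : verts T → ZMod 2)
    (hf : (M1 T).transpose.mulVec f = 0) {t : Finset ℕ} (ht : t ∈ T) {u v : ℕ} (hu : u ∈ t)
    (hv : v ∈ t) (huv : u ≠ v) (hu' : u ∈ verts T) (hv' : v ∈ verts T) :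
    f ⟨u, hu'⟩ = f ⟨v, hv'⟩ := by
  classical
  have he : ({u, v} : Finset ℕ) ∈ edges T := by
    refine mem_edges.2 ⟨t, ht, ?_, Finset.card_pair huv⟩
    intro x hx
    rw [Finset.mem_insert, Finset.mem_singleton] at hx
    rcases hx with rfl | rfl
    · exact hu
    · exact hv
  have h := congrFun hf ⟨{u, v}, he⟩
  have h2 : ∑ x : verts T, (if (x : ℕ) ∈ ({u, v} : Finset ℕ) then (1 : ZMod 2) else 0) * f x = 0 :=
    h
  rw [Finset.sum_eq_add (⟨u, hu'⟩ : verts T) (⟨v, hv'⟩ : verts T)
    (fun hh => huv (congrArg Subtype.val hh))] at h2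
  · rw [if_pos (Finset.mem_insert_self _ _),
      if_pos (Finset.mem_insert_of_mem (Finset.mem_singleton_self _)), one_mul, one_mul] at h2
    exact CharTwo.add_eq_zero.1 h2
  · rintro ⟨c, hc⟩ _ ⟨h3, h4⟩
    rw [if_neg, zero_mul]
    intro hmem
    rw [Finset.mem_insert, Finset.mem_singleton] at hmem
    rcases hmem with h5 | h5
    · exact h3 (Subtype.ext h5)
    · exact h4 (Subtype.ext h5)
  · intro hh; exact absurd (Finset.mem_univ _) hh
  · intro hh; exact absurd (Finset.mem_univ _) hh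

theorem ker1 {T : Finset (Finset ℕ)} (hS : IsSphere T) (f : verts T → ZMod 2)
    (hf : (M1 T).transpose.mulVec f = 0) (u v : verts T) : f u = f v := by
  classical
  have hA := vconn hS (S := (verts T).filter (fun x => ∃ h : x ∈ verts T, f ⟨x, h⟩ = f v))
    (Finset.filter_subset _ _) ⟨v, Finset.mem_filter.2 ⟨v.2, v.2, rfl⟩⟩ (by
      intro t ht x hx hxS y hy
      rw [Finset.mem_filter] at hxS ⊢
      obtain ⟨_, hx', h1⟩ := hxS
      have hy' : y ∈ verts T := mem_verts.2 ⟨t, ht, hy⟩
      refine ⟨hy', hy', ?_⟩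
      by_cases hxy : x = y
      · subst hxy; exact h1
      · rw [← adjv88 f hf ht hx hy hxy hx' hy', h1])
  have h1 : (u : ℕ) ∈ (verts T).filter (fun x => ∃ h : x ∈ verts T, f ⟨x, h⟩ = f v) := by
    rw [hA]; exact u.2
  obtain ⟨_, _, h2⟩ := Finset.mem_filter.1 h1
  exact h2

end Pool.Agent.Helper79.HB
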