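import Pool.Agent.Helper79.HB.B2

/-!
# BLOCK HB-3: exactness (every cycle is a boundary)

`comp_zero`: for a vertex `v` and a triangle `t` the number of edges `e` with `v ∈ e ⊆ t` is
2 (if `v ∈ t`) or 0, so the product of the two matrices is zero modulo 2.

`exact`: `rank M2 = |T| - 1`, since the kernel of `M2.mulVecLin` consists of the constants
(`ker2`; the constants are indeed in the kernel by `edge_two`, but only `kernel ⊆ constants` is
needed: rank M2 ≥ |T| - 1, `LinearMap.finrank_range_add_finrank_ker`).  In the same way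
`rank (M1)ᵀ ≥ |V| - 1` by `ker1`, and `rank M1 = rank M1ᵀ` (`Matrix.rank_transpose`).  So
`dim ker M1 = |E| - rank M1 ≤ |E| - |V| + 1 = |T| - 1 ≤ rank M2` by `card_edges` and `hS.euler`
(`2 |E| = 3 |T|`, `2 |V| = |T| + 4`), and `range M2 ⊆ ker M1` by `comp_zero`; hence they are equal
(`Submodule.eq_of_le_of_finrank_le`).
-/

namespace Pool.Agent.Helper79.HB

open Finset Pool.Agent.Helper79.HX

private lemma finrank_const50 {I : Type} [Fintype I] (S : Submodule (ZMod 2) (I → ZMod 2))
    (h : ∀ f ∈ S, ∀ i j, f i = f j) : Module.finrank (ZMod 2) S ≤ 1 := by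
  have hle : S ≤ Submodule.span (ZMod 2) {(fun _ => 1 : I → ZMod 2)} := by
    intro f hf
    rw [Submodule.mem_span_singleton]
    by_cases hI : Nonempty I
    · obtain ⟨i⟩ := hI
      refine ⟨f i, ?_⟩
      funext j
      rw [Pi.smul_apply, smul_eq_mul, mul_one]
      exact h f hf i j
    · refine ⟨0, ?_⟩
      funext j
      exact (hI ⟨j⟩).elim
  refine (Submodule.finrank_mono hle).trans ?_
  refine (finrank_span_le_card _).trans ?_
  simp

theorem comp_zero {T : Finset (Finset ℕ)} (hS : IsSphere T) : M1 T * M2 T = 0 := by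
  ext v t
  rw [Matrix.mul_apply, Matrix.zero_apply]
  have h1 : ∀ e : edges T, M1 T v e * M2 T e t =
      (fun e : Finset ℕ => if ((v : ℕ) ∈ e ∧ e ⊆ (t : Finset ℕ)) then (1 : ZMod 2) else 0) e := by
    intro e
    simp only [M1, M2, Matrix.of_apply]
    by_cases h2 : (v : ℕ) ∈ (e : Finset ℕ) <;> by_cases h3 : (e : Finset ℕ) ⊆ (t : Finset ℕ) <;>
      simp [h2, h3]
  rw [Finset.sum_congr rfl fun e _ => h1 e, Finset.sum_coe_sort (edges T)
    (fun e : Finset ℕ => if ((v : ℕ) ∈ e ∧ e ⊆ (t : Finset ℕ)) then (1 : ZMod 2) else 0),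
    Finset.sum_boole]
  by_cases hv : (v : ℕ) ∈ (t : Finset ℕ)
  · have h2 : (edges T).filter (fun e => (v : ℕ) ∈ e ∧ e ⊆ (t : Finset ℕ)) =
        ((t : Finset ℕ).erase v).image (fun w => {(v : ℕ), w}) := by
      ext e
      simp only [Finset.mem_filter, Finset.mem_image, Finset.mem_erase]
      constructor
      · rintro ⟨he, hve, het⟩
        obtain ⟨-, -, -, hc⟩ := mem_edges.1 he
        obtain ⟨x, y, hxy, rfl⟩ := Finset.card_eq_two.1 hc
        have hx : x ∈ (t : Finset ℕ) := het (by simp)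
        have hy : y ∈ (t : Finset ℕ) := het (by simp)
        rcases Finset.mem_insert.1 hve with h | h
        · exact ⟨y, ⟨fun hyv => hxy (by rw [hyv, h]), hy⟩, by rw [h]⟩
        · rw [Finset.mem_singleton] at h
          exact ⟨x, ⟨fun hxv => hxy (by rw [hxv, h]), hx⟩, by rw [h, Finset.pair_comm]⟩
      · rintro ⟨w, ⟨hw, hwt⟩, rfl⟩
        have hsub : ({(v : ℕ), w} : Finset ℕ) ⊆ (t : Finset ℕ) := by
          intro z hz
          rcases Finset.mem_insert.1 hz with rfl | hz
          · exact hv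
          · rw [Finset.mem_singleton] at hz
            rw [hz]
            exact hwt
        exact ⟨mem_edges.2 ⟨t, t.2, hsub, Finset.card_pair (Ne.symm hw)⟩, by simp, hsub⟩
    have h3 : (((t : Finset ℕ).erase v).image (fun w => ({(v : ℕ), w} : Finset ℕ))).card = 2 := by
      rw [Finset.card_image_of_injOn, Finset.card_erase_of_mem hv, hS.tri t t.2]
      intro w hw w' hw' he
      have hw1 := (Finset.mem_erase.1 (Finset.mem_coe.1 hw)).1
      have he' : ({(v : ℕ), w} : Finset ℕ) = {(v : ℕ), w'} := he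
      have h4 : w ∈ ({(v : ℕ), w'} : Finset ℕ) := he' ▸ (by simp)
      rcases Finset.mem_insert.1 h4 with h5 | h5
      · exact (hw1 h5).elim
      · exact Finset.mem_singleton.1 h5
    rw [h2, h3]
    rfl
  · have h2 : (edges T).filter (fun e => (v : ℕ) ∈ e ∧ e ⊆ (t : Finset ℕ)) = ∅ := by
      rw [Finset.filter_eq_empty_iff]
      rintro e - ⟨h3, h4⟩
      exact hv (h4 h3)
    rw [h2]
    simp

theorem exact {T : Finset (Finset ℕ)} (hS : IsSphere T) (z : edges T → ZMod 2)
    (hz : (M1 T).mulVec z = 0) : ∃ g : T → ZMod 2, (M2 T).mulVec g = z := by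
  have hle : LinearMap.range (M2 T).mulVecLin ≤ LinearMap.ker (M1 T).mulVecLin := by
    rintro _ ⟨g, rfl⟩
    rw [LinearMap.mem_ker, Matrix.mulVecLin_apply, Matrix.mulVecLin_apply, Matrix.mulVec_mulVec,
      comp_zero hS, Matrix.zero_mulVec]
  have hk2 : Module.finrank (ZMod 2) (LinearMap.ker (M2 T).mulVecLin) ≤ 1 := by
    refine finrank_const50 _ fun g hg s t => ker2 hS g ?_ s t
    rwa [LinearMap.mem_ker, Matrix.mulVecLin_apply] at hg
  have hk1 : Module.finrank (ZMod 2) (LinearMap.ker (M1 T).transpose.mulVecLin) ≤ 1 := by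
    refine finrank_const50 _ fun g hg s t => ker1 hS g ?_ s t
    rwa [LinearMap.mem_ker, Matrix.mulVecLin_apply] at hg
  have r2 := LinearMap.finrank_range_add_finrank_ker (M2 T).mulVecLin
  have r1' := LinearMap.finrank_range_add_finrank_ker (M1 T).transpose.mulVecLin
  have r1 := LinearMap.finrank_range_add_finrank_ker (M1 T).mulVecLin
  rw [Module.finrank_fintype_fun_eq_card, Fintype.card_coe] at r2 r1' r1
  have ht : Module.finrank (ZMod 2) (LinearMap.range (M1 T).transpose.mulVecLin) =
      Module.finrank (ZMod 2) (LinearMap.range (M1 T).mulVecLin) := (M1 T).rank_transpose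
  have hE := card_edges hS
  have hV := hS.euler
  have hfin : Module.finrank (ZMod 2) (LinearMap.ker (M1 T).mulVecLin) ≤
      Module.finrank (ZMod 2) (LinearMap.range (M2 T).mulVecLin) := by
    omega
  have heq := Submodule.eq_of_le_of_finrank_le hle hfin
  have hz' : z ∈ LinearMap.range (M2 T).mulVecLin := by
    rw [heq, LinearMap.mem_ker, Matrix.mulVecLin_apply]
    exact hz
  obtain ⟨g, hg⟩ := hz'
  exact ⟨g, by rwa [Matrix.mulVecLin_apply] at hg⟩

end Pool.Agent.Helper79.HB
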