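import Pool.Agent.Helper79.HB.B1

/-!
# BLOCK HB-4: the cycle space of a set of edges

`cyc H`: the cycles supported on `H`, as a subspace of the functions on the edges.

Proof of `dim_cyc`: consider the linear map `Φ` from the functions `H → ZMod 2` to the functions
on the vertex set `V(H) = H.biUnion id`, `Φ z v = ∑_{e ∈ H, v ∈ e} z e`.  Its image is contained in
the hyperplane `∑_v y v = 0` (every `e ∈ H` has exactly two vertices, all in `V(H)`), which is a
proper subspace as `V(H)` is nonempty, so the rank is at most `|V(H)| - 1` and the kernel has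
dimension at least `|H| - |V(H)| + 1`.  Extension by zero embeds the kernel of `Φ` into `cyc H`
(vertices outside `V(H)` are in no edge of `H`).
-/

namespace Pool.Agent.Helper79.HB

open Finset Pool.Agent.Helper79.HX

/-- the cycles supported on `H` -/
def cyc (T H : Finset (Finset ℕ)) : Submodule (ZMod 2) (edges T → ZMod 2) where
  carrier := {z | (M1 T).mulVec z = 0 ∧ ∀ e : edges T, (e : Finset ℕ) ∉ H → z e = 0}
  zero_mem' := ⟨Matrix.mulVec_zero _, fun _ _ => rfl⟩
  add_mem' := by
    rintro x y ⟨hx, hx'⟩ ⟨hy, hy'⟩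
    refine ⟨by rw [Matrix.mulVec_add, hx, hy, add_zero], fun e he => ?_⟩
    rw [Pi.add_apply, hx' e he, hy' e he, add_zero]
  smul_mem' := by
    rintro c x ⟨hx, hx'⟩
    refine ⟨by rw [Matrix.mulVec_smul, hx, smul_zero], fun e he => ?_⟩
    rw [Pi.smul_apply, hx' e he, smul_zero]

/-- the boundary map -/
private def phi1 (H : Finset (Finset ℕ)) : (H → ZMod 2) →ₗ[ZMod 2] ((H.biUnion id) → ZMod 2) where
  toFun z v := ∑ e : H, if (v : ℕ) ∈ (e : Finset ℕ) then z e else 0
  map_add' x y := by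
    funext v
    rw [Pi.add_apply, ← Finset.sum_add_distrib]
    refine Finset.sum_congr rfl fun e _ => ?_
    split_ifs
    · rfl
    · rw [add_zero]
  map_smul' c x := by
    funext v
    rw [Pi.smul_apply, RingHom.id_apply, smul_eq_mul, Finset.mul_sum]
    refine Finset.sum_congr rfl fun e _ => ?_
    split_ifs
    · rfl
    · rw [mul_zero]

private theorem phi_apply1 (H : Finset (Finset ℕ)) (z : H → ZMod 2) (v : H.biUnion id) :
    phi1 H z v = ∑ e : H, if (v : ℕ) ∈ (e : Finset ℕ) then z e else 0 := rfl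

/-- the sum of the coordinates -/
private def sig1 (V : Finset ℕ) : (V → ZMod 2) →ₗ[ZMod 2] ZMod 2 where
  toFun y := ∑ v, y v
  map_add' x y := by
    rw [← Finset.sum_add_distrib]
    rfl
  map_smul' c x := by
    rw [RingHom.id_apply, smul_eq_mul, Finset.mul_sum]
    rfl

private theorem sig_phi1 {H : Finset (Finset ℕ)} (h2 : ∀ e ∈ H, e.card = 2) (z : H → ZMod 2) :
    sig1 (H.biUnion id) (phi1 H z) = 0 := by
  show ∑ v : H.biUnion id, ∑ e : H, (if (v : ℕ) ∈ (e : Finset ℕ) then z e else 0) = 0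
  rw [Finset.sum_comm]
  refine Finset.sum_eq_zero fun e _ => ?_
  have h3 := Finset.sum_coe_sort (H.biUnion id) (fun v : ℕ => if v ∈ (e : Finset ℕ) then z e else 0)
  refine (Eq.trans ?_ h3).trans ?_
  · rfl
  · rw [← Finset.sum_filter, Finset.sum_const]
    have h4 : (H.biUnion id).filter (fun v => v ∈ (e : Finset ℕ)) = (e : Finset ℕ) := by
      ext v
      rw [Finset.mem_filter, Finset.mem_biUnion]
      exact ⟨fun h => h.2, fun h => ⟨⟨e, e.2, h⟩, h⟩⟩
    rw [h4, h2 e e.2]
    have h5 : (2 : ZMod 2) = 0 := by decide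
    rw [nsmul_eq_mul, Nat.cast_ofNat, h5, zero_mul]

/-- extension by zero -/
private def ext1 {H : Finset (Finset ℕ)} (z : H → ZMod 2) (e : Finset ℕ) : ZMod 2 :=
  if h : e ∈ H then z ⟨e, h⟩ else 0

private theorem ext_mulVec1 {T H : Finset (Finset ℕ)} (hH : H ⊆ edges T) (z : H → ZMod 2)
    (hz : phi1 H z = 0) : (M1 T).mulVec (fun e : edges T => ext1 z e) = 0 := by
  funext v
  have h1 : (M1 T).mulVec (fun e : edges T => ext1 z e) v =
      ∑ e : edges T, (if (v : ℕ) ∈ (e : Finset ℕ) then (1 : ZMod 2) else 0) * ext1 z e := rfl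
  have h2 := Finset.sum_coe_sort (edges T)
    (fun e : Finset ℕ => (if (v : ℕ) ∈ e then (1 : ZMod 2) else 0) * ext1 z e)
  have h3 := Finset.sum_coe_sort H
    (fun e : Finset ℕ => (if (v : ℕ) ∈ e then (1 : ZMod 2) else 0) * ext1 z e)
  have h4 : ∑ e ∈ H, (if (v : ℕ) ∈ e then (1 : ZMod 2) else 0) * ext1 z e =
      ∑ e ∈ edges T, (if (v : ℕ) ∈ e then (1 : ZMod 2) else 0) * ext1 z e := by
    refine Finset.sum_subset hH fun e _ he => ?_
    rw [ext1, dif_neg he, mul_zero]
  rw [h1, h2, ← h4, ← h3, Pi.zero_apply]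
  by_cases hv : (v : ℕ) ∈ H.biUnion id
  · have h5 := congrFun hz ⟨v, hv⟩
    rw [phi_apply1, Pi.zero_apply] at h5
    refine Eq.trans (Finset.sum_congr rfl fun e _ => ?_) h5
    have h6 : ext1 z (e : Finset ℕ) = z e := by rw [ext1, dif_pos e.2]
    rw [h6]
    split_ifs
    · rw [one_mul]
    · rw [zero_mul]
  · refine Finset.sum_eq_zero fun e _ => ?_
    rw [if_neg, zero_mul]
    exact fun h => hv (Finset.mem_biUnion.2 ⟨e, e.2, h⟩)

/-- extension by zero, as a linear map to the cycles -/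
private def emb1 {T H : Finset (Finset ℕ)} (hH : H ⊆ edges T) :
    LinearMap.ker (phi1 H) →ₗ[ZMod 2] cyc T H where
  toFun z := ⟨fun e : edges T => ext1 z.1 e, ext_mulVec1 hH z.1 (LinearMap.mem_ker.1 z.2),
    fun e he => dif_neg he⟩
  map_add' x y := by
    apply Subtype.ext
    funext e
    show ext1 (x.1 + y.1) (e : Finset ℕ) = ext1 x.1 e + ext1 y.1 e
    unfold ext1
    split_ifs
    · rfl
    · rw [add_zero]
  map_smul' c x := by
    apply Subtype.ext
    funext e
    show ext1 (c • x.1) (e : Finset ℕ) = c * ext1 x.1 e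
    unfold ext1
    split_ifs
    · rfl
    · rw [mul_zero]

private theorem emb_inj1 {T H : Finset (Finset ℕ)} (hH : H ⊆ edges T) :
    Function.Injective (emb1 hH) := by
  intro x y h
  apply Subtype.ext
  funext e
  have h1 := congrFun (congrArg Subtype.val h) ⟨e.1, hH e.2⟩
  have h2 : ext1 x.1 (e : Finset ℕ) = ext1 y.1 e := h1
  rw [ext1, ext1, dif_pos e.2, dif_pos e.2] at h2
  exact h2

theorem dim_cyc {T H : Finset (Finset ℕ)} (hH : H ⊆ edges T) (hne : H.Nonempty) :
    H.card + 1 ≤ (H.biUnion id).card + Module.finrank (ZMod 2) (cyc T H) := by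
  have hp : Fact (Nat.Prime 2) := ⟨Nat.prime_two⟩
  have h2 : ∀ e ∈ H, e.card = 2 := fun e he => by
    obtain ⟨_, _, _, h⟩ := mem_edges.1 (hH he)
    exact h
  -- the rank of the sum functional
  obtain ⟨e0, he0⟩ := hne
  obtain ⟨v0, hv0⟩ : e0.Nonempty := Finset.card_pos.1 (by rw [h2 e0 he0]; norm_num)
  have hv0' : v0 ∈ H.biUnion id := Finset.mem_biUnion.2 ⟨e0, he0, hv0⟩
  have hsurj : LinearMap.range (sig1 (H.biUnion id)) = ⊤ := by
    rw [LinearMap.range_eq_top]
    intro c
    refine ⟨fun v => if v = ⟨v0, hv0'⟩ then c else 0, ?_⟩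
    show ∑ v : H.biUnion id, (if v = ⟨v0, hv0'⟩ then c else 0) = c
    rw [Finset.sum_ite_eq', if_pos (Finset.mem_univ _)]
  have h3 := LinearMap.finrank_range_add_finrank_ker (sig1 (H.biUnion id))
  rw [hsurj, finrank_top, Module.finrank_self, Module.finrank_fintype_fun_eq_card,
    Fintype.card_coe] at h3
  have h4 := LinearMap.finrank_range_add_finrank_ker (phi1 H)
  rw [Module.finrank_fintype_fun_eq_card, Fintype.card_coe] at h4
  have h5 : LinearMap.range (phi1 H) ≤ LinearMap.ker (sig1 (H.biUnion id)) := by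
    rintro _ ⟨z, rfl⟩
    exact LinearMap.mem_ker.2 (sig_phi1 h2 z)
  have h6 := Submodule.finrank_mono h5
  have h7 := LinearMap.finrank_le_finrank_of_injective (emb_inj1 hH)
  omega

end Pool.Agent.Helper79.HB
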