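import Pool.Agent.Helper79.HB.B2

/-!
# BLOCK HB-5: the regions of a set of edges

`reg T H`: the functions on the triangles whose boundary is supported on `H`.

Proof of `dim_reg`.  Let `G` be the simple graph on the triangles (the subtype `T`) where `s, t`
are adjacent if `s ≠ t` and they share an edge `e ∈ edges T`, `e ∉ H` (`e ⊆ s`, `e ⊆ t`).  Let
`R = G.ConnectedComponent` (finite), `r` its cardinality.
(1) Every `g ∈ reg T H` satisfies `g s = g t` for adjacent `s, t` (the two triangles containing
`e` are `s` and `t`, and `(M2 g) e = g s + g t = 0`), so `g` is constant on the components, and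
the restriction to components is an injective linear map `reg T H → (R → ZMod 2)`:
`finrank (reg T H) ≤ r`.
(2) If `r ≥ 2` then for every component `c` the indicator function `g_c` of `c` is in `reg T H`,
and it is not constant, so `M2 g_c ≠ 0` by `ker2`.  Its support (as a Finset of edges)
`z_c = (edges T).filter (fun e => (M2 g_c) e ≠ 0)` is a nonempty subset of `H` whose incidence
numbers are even (`comp_zero`, in the form of the hypothesis `hcomp` below), so it has at least
`k` elements by `hk`.  Every `e ∈ H` lies in `z_c` for at most two components `c` (those of the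
two triangles containing `e`).  Double counting: `k r ≤ 2 |H|`.
So `finrank ≤ 1` (if `r ≤ 1`) or `k * finrank ≤ k r ≤ 2 |H|`.
-/

namespace Pool.Agent.Helper79.HB

open Finset Pool.Agent.Helper79.HX

/-- the 2-chains whose boundary is supported on `H` -/
def reg (T H : Finset (Finset ℕ)) : Submodule (ZMod 2) (T → ZMod 2) where
  carrier := {g | ∀ e : edges T, (e : Finset ℕ) ∉ H → (M2 T).mulVec g e = 0}
  zero_mem' := fun _ _ => by rw [Matrix.mulVec_zero]; rfl
  add_mem' := by
    intro x y hx hy e he
    rw [Matrix.mulVec_add, Pi.add_apply, hx e he, hy e he, add_zero]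
  smul_mem' := by
    intro c x hx e he
    rw [Matrix.mulVec_smul, Pi.smul_apply, hx e he, smul_zero]

private theorem two89 {T : Finset (Finset ℕ)} (hS : IsSphere T) (e : edges T) :
    ∃ s t : T, (∀ g : T → ZMod 2, (M2 T).mulVec g e = g s + g t) ∧
      (e : Finset ℕ) ⊆ s ∧ (e : Finset ℕ) ⊆ t ∧
      ∀ u : T, (e : Finset ℕ) ⊆ (u : Finset ℕ) → u = s ∨ u = t := by
  have h := edge_two hS e.2
  obtain ⟨s, t, hst, hF⟩ := Finset.card_eq_two.1 h
  have hs : s ∈ T.filter (fun s => (e : Finset ℕ) ⊆ s) := by rw [hF]; simp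
  have ht : t ∈ T.filter (fun s => (e : Finset ℕ) ⊆ s) := by rw [hF]; simp
  rw [Finset.mem_filter] at hs ht
  have huniq : ∀ u : T, (e : Finset ℕ) ⊆ (u : Finset ℕ) → u = ⟨s, hs.1⟩ ∨ u = ⟨t, ht.1⟩ := by
    intro u hu
    have : (u : Finset ℕ) ∈ T.filter (fun s => (e : Finset ℕ) ⊆ s) :=
      Finset.mem_filter.2 ⟨u.2, hu⟩
    rw [hF, Finset.mem_insert, Finset.mem_singleton] at this
    rcases this with h | h
    · exact Or.inl (Subtype.ext h)
    · exact Or.inr (Subtype.ext h)
  refine ⟨⟨s, hs.1⟩, ⟨t, ht.1⟩, ?_, hs.2, ht.2, huniq⟩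
  intro g
  have h1 : (M2 T).mulVec g e = ∑ u : T, if (e : Finset ℕ) ⊆ (u : Finset ℕ) then g u else 0 := by
    show ∑ u : T, (if (e : Finset ℕ) ⊆ (u : Finset ℕ) then (1 : ZMod 2) else 0) * g u = _
    refine Finset.sum_congr rfl fun u _ => ?_
    split_ifs
    · rw [one_mul]
    · rw [zero_mul]
  have h2 : (Finset.univ.filter fun u : T => (e : Finset ℕ) ⊆ (u : Finset ℕ)) =
      {⟨s, hs.1⟩, ⟨t, ht.1⟩} := by
    ext u
    simp only [Finset.mem_filter, Finset.mem_univ, true_and, Finset.mem_insert,
      Finset.mem_singleton]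
    constructor
    · exact huniq u
    · rintro (rfl | rfl)
      · exact hs.2
      · exact ht.2
  rw [h1, ← Finset.sum_filter, h2, Finset.sum_pair]
  intro h
  exact hst (congrArg Subtype.val h)

private theorem zmod2_cases89 (x : ZMod 2) : x = 0 ∨ x = 1 := by
  revert x; decide

theorem dim_reg {T H : Finset (Finset ℕ)} (hS : IsSphere T) (hH : H ⊆ edges T) {k : ℕ}
    (hcomp : M1 T * M2 T = 0)
    (hk : ∀ z ⊆ H, z.Nonempty → (∀ v, Even ((z.filter (fun e => v ∈ e)).card)) → k ≤ z.card) :
    Module.finrank (ZMod 2) (reg T H) ≤ 1 ∨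
      k * Module.finrank (ZMod 2) (reg T H) ≤ 2 * H.card := by
  classical
  -- the regions
  let r : Setoid T := Relation.EqvGen.setoid (fun s t : T =>
    ∃ e ∈ edges T, e ∉ H ∧ e ⊆ (s : Finset ℕ) ∧ e ⊆ (t : Finset ℕ))
  let R := Quotient r
  let mk : T → R := fun t => Quotient.mk r t
  have : Fintype R := Quotient.fintype r
  have hadj : ∀ s t : T, ∀ e ∈ edges T, e ∉ H → e ⊆ (s : Finset ℕ) → e ⊆ (t : Finset ℕ) →
      mk s = mk t := by
    intro s t e he heH hs ht
    exact Quotient.sound (Relation.EqvGen.rel s t ⟨e, he, heH, hs, ht⟩)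
  -- the upper bound
  have hle : Module.finrank (ZMod 2) (reg T H) ≤ Fintype.card R := by
    have hmem : ∀ g ∈ reg T H, ∀ s t : T, r s t → g s = g t := by
      intro g hg s t hst
      have hst' : Relation.EqvGen (fun s t : T =>
        ∃ e ∈ edges T, e ∉ H ∧ e ⊆ (s : Finset ℕ) ∧ e ⊆ (t : Finset ℕ)) s t := hst
      induction hst' with
      | rel s t h =>
        obtain ⟨e, he, heH, hs, ht⟩ := h
        obtain ⟨a, b, hab, ha, hb, hu⟩ := two89 hS ⟨e, he⟩
        have h0 : g a + g b = 0 := by
          rw [← hab]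
          exact hg ⟨e, he⟩ heH
        have hgab : g a = g b := by
          have h2 : g a + g b + g b = g b := by rw [h0, zero_add]
          rwa [add_assoc, CharTwo.add_self_eq_zero, add_zero] at h2
        have key : ∀ u : T, e ⊆ (u : Finset ℕ) → g u = g a := by
          intro u hu'
          rcases hu u hu' with h | h
          · rw [h]
          · rw [h, hgab]
        rw [key s hs, key t ht]
      | refl s => rfl
      | symm s t _ ih => exact (ih (by assumption)).symm
      | trans s t u _ _ ih1 ih2 => exact (ih1 (by assumption)).trans (ih2 (by assumption))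
    let Φ : (R → ZMod 2) →ₗ[ZMod 2] (T → ZMod 2) :=
      { toFun := fun c => c ∘ mk
        map_add' := fun _ _ => rfl
        map_smul' := fun _ _ => rfl }
    have hsub : reg T H ≤ LinearMap.range Φ := by
      intro g hg
      refine ⟨Quotient.lift g (fun s t hst => hmem g hg s t hst), ?_⟩
      funext t
      rfl
    calc Module.finrank (ZMod 2) (reg T H) ≤ Module.finrank (ZMod 2) (LinearMap.range Φ) :=
          Submodule.finrank_mono hsub
      _ ≤ Module.finrank (ZMod 2) (R → ZMod 2) := LinearMap.finrank_range_le Φ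
      _ = Fintype.card R := Module.finrank_fintype_fun_eq_card _
  by_cases hr : Fintype.card R ≤ 1
  · exact Or.inl (hle.trans hr)
  right
  rw [not_le, Fintype.one_lt_card_iff_nontrivial] at hr
  -- the indicator functions
  let g : R → T → ZMod 2 := fun c t => if mk t = c then 1 else 0
  let Z : R → Finset (Finset ℕ) := fun c =>
    (Finset.univ.filter (fun e : edges T => (M2 T).mulVec (g c) e ≠ 0)).map
      (Function.Embedding.subtype _)
  have hZmem : ∀ c e, e ∈ Z c ↔ ∃ h : e ∈ edges T, (M2 T).mulVec (g c) ⟨e, h⟩ ≠ 0 := by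
    intro c e
    constructor
    · intro h
      obtain ⟨e', he', rfl⟩ := Finset.mem_map.1 h
      exact ⟨e'.2, (Finset.mem_filter.1 he').2⟩
    · rintro ⟨h, h'⟩
      exact Finset.mem_map.2 ⟨⟨e, h⟩, Finset.mem_filter.2 ⟨Finset.mem_univ _, h'⟩, rfl⟩
  have hZH : ∀ c, Z c ⊆ H := by
    intro c e he
    obtain ⟨h, h'⟩ := (hZmem c e).1 he
    by_contra heH
    apply h'
    obtain ⟨a, b, hab, ha, hb, -⟩ := two89 hS ⟨e, h⟩
    rw [hab]
    have : mk a = mk b := hadj a b e h heH ha hb
    show (if mk a = c then (1 : ZMod 2) else 0) + (if mk b = c then 1 else 0) = 0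
    rw [this]
    exact CharTwo.add_self_eq_zero _
  have hZne : ∀ c, (Z c).Nonempty := by
    intro c
    by_contra hemp
    rw [Finset.not_nonempty_iff_eq_empty] at hemp
    have h0 : (M2 T).mulVec (g c) = 0 := by
      funext e
      by_contra hne
      have : (e : Finset ℕ) ∈ Z c := (hZmem c e).2 ⟨e.2, hne⟩
      rw [hemp] at this
      exact absurd this (Finset.notMem_empty _)
    obtain ⟨c', hc'⟩ := exists_ne c
    obtain ⟨t, ht⟩ := Quotient.exists_rep c
    obtain ⟨t', ht'⟩ := Quotient.exists_rep c'
    have h1 := ker2 hS (g c) h0 t t'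
    have h2 : g c t = 1 := if_pos ht
    have h3 : g c t' = 0 := if_neg (by
      intro h
      exact hc' (ht'.symm.trans h))
    rw [h2, h3] at h1
    exact one_ne_zero h1
  have hZeven : ∀ c v, Even (((Z c).filter (fun e => v ∈ e)).card) := by
    intro c v
    by_cases hv : v ∈ verts T
    · have h1 : (M1 T).mulVec ((M2 T).mulVec (g c)) = 0 := by
        rw [Matrix.mulVec_mulVec, hcomp, Matrix.zero_mulVec]
      have h2 := congrFun h1 ⟨v, hv⟩
      have h3 : ((((Z c).filter (fun e => v ∈ e)).card : ℕ) : ZMod 2) =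
          (M1 T).mulVec ((M2 T).mulVec (g c)) ⟨v, hv⟩ := by
        have h4 : (Z c).filter (fun e => v ∈ e) = (Finset.univ.filter (fun e : edges T =>
            v ∈ (e : Finset ℕ) ∧ (M2 T).mulVec (g c) e ≠ 0)).map
            (Function.Embedding.subtype _) := by
          ext e
          rw [Finset.mem_filter, hZmem, Finset.mem_map]
          constructor
          · rintro ⟨⟨h, h'⟩, hve⟩
            exact ⟨⟨e, h⟩, Finset.mem_filter.2 ⟨Finset.mem_univ _, hve, h'⟩, rfl⟩
          · rintro ⟨e', he', rfl⟩
            have := (Finset.mem_filter.1 he').2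
            exact ⟨⟨e'.2, this.2⟩, this.1⟩
        rw [h4, Finset.card_map, Finset.card_filter]
        push_cast
        show _ = ∑ e : edges T, (if ((⟨v, hv⟩ : verts T) : ℕ) ∈ (e : Finset ℕ) then (1 : ZMod 2)
          else 0) * (M2 T).mulVec (g c) e
        refine Finset.sum_congr rfl fun e _ => ?_
        by_cases hve : v ∈ (e : Finset ℕ)
        · have hve' : ((⟨v, hv⟩ : verts T) : ℕ) ∈ (e : Finset ℕ) := hve
          rw [if_pos hve', one_mul]
          rcases zmod2_cases89 ((M2 T).mulVec (g c) e) with h | h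
          · rw [if_neg (by rw [h]; simp)]
            exact h.symm
          · rw [if_pos ⟨hve, by rw [h]; exact one_ne_zero⟩]
            exact h.symm
        · have hve' : ¬ ((⟨v, hv⟩ : verts T) : ℕ) ∈ (e : Finset ℕ) := hve
          rw [if_neg hve', zero_mul, if_neg (fun h => hve h.1)]
      rw [h2] at h3
      have h5 : (((Z c).filter (fun e => v ∈ e)).card : ZMod 2) = 0 := h3
      rw [ZMod.natCast_eq_zero_iff] at h5
      exact even_iff_two_dvd.2 h5
    · have : (Z c).filter (fun e => v ∈ e) = ∅ := by
        rw [Finset.filter_eq_empty_iff]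
        intro e he hve
        obtain ⟨h, -⟩ := (hZmem c e).1 he
        obtain ⟨t, ht, hst, -⟩ := mem_edges.1 h
        exact hv (mem_verts.2 ⟨t, ht, hst hve⟩)
      rw [this]
      simp
  have hcard : k * Fintype.card R ≤ 2 * H.card := by
    calc k * Fintype.card R = ∑ _c : R, k := by
          rw [Finset.sum_const, smul_eq_mul, mul_comm]
          rfl
      _ ≤ ∑ c : R, (Z c).card := Finset.sum_le_sum fun c _ => hk _ (hZH c) (hZne c) (hZeven c)
      _ = ∑ c : R, ∑ e ∈ H, if e ∈ Z c then 1 else 0 := by
          refine Finset.sum_congr rfl fun c _ => ?_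
          rw [← Finset.card_filter]
          congr 1
          ext e
          rw [Finset.mem_filter]
          exact ⟨fun h => ⟨hZH c h, h⟩, fun h => h.2⟩
      _ = ∑ e ∈ H, ∑ c : R, if e ∈ Z c then 1 else 0 := Finset.sum_comm
      _ ≤ ∑ _e ∈ H, 2 := by
          refine Finset.sum_le_sum fun e he => ?_
          rw [← Finset.card_filter]
          obtain ⟨a, b, hab, -, -, -⟩ := two89 hS ⟨e, hH he⟩
          refine (Finset.card_le_card (t := {mk a, mk b}) ?_).trans Finset.card_le_two
          intro c hc
          obtain ⟨h, h'⟩ := (hZmem c e).1 (Finset.mem_filter.1 hc).2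
          rw [hab] at h'
          rw [Finset.mem_insert, Finset.mem_singleton]
          by_contra hcon
          rw [not_or] at hcon
          apply h'
          show (if mk a = c then (1 : ZMod 2) else 0) + (if mk b = c then 1 else 0) = 0
          rw [if_neg (Ne.symm hcon.1), if_neg (Ne.symm hcon.2), add_zero]
      _ = 2 * H.card := by rw [Finset.sum_const, smul_eq_mul, mul_comm]
  exact (Nat.mul_le_mul_left k hle).trans hcard

end Pool.Agent.Helper79.HB
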