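import Pool.Agent.Helper79.HB.B3
import Pool.Agent.Helper79.HB.B4
import Pool.Agent.Helper79.HB.B5

/-!
# BLOCK HB-6: Euler's inequality for sets of edges; simple and bipartite planar graphs

`euler_ineq`: the linear map `g ↦ M2 g` maps `reg T H` onto `cyc T H`: for `z ∈ cyc T H` there is
`g` with `M2 g = z` by `exact`, and `g ∈ reg T H` since `z` vanishes off `H`; (for `g ∈ reg T H`,
`M2 g ∈ cyc T H` by `comp_zero`).  The constant function `1` is a nonzero element of the kernel
(`edge_two`, `1 + 1 = 0`; `T` is nonempty).  So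
`finrank (cyc T H) + 1 ≤ finrank (reg T H)`, and with `dim_cyc`:
`|H| + 2 ≤ |V(H)| + finrank (reg T H)`.  With `dim_reg`: either `|H| + 1 ≤ |V(H)|`, or
`k |H| + 2 k ≤ k |V(H)| + 2 |H|`.

`girth3`: a nonempty set `z` of edges (2-element sets) in which every vertex has even degree has at
least 3 elements: take `{u, v} ∈ z`; `u` lies in another edge `{u, w}`, `w ≠ v`, and `v` lies in
another edge `{v, w'}`; these three are distinct.

`girth4`: if moreover every edge has exactly one vertex in `X` (and the other one outside), then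
there are at least 4: `{u, v}` with `u ∈ X`; other edges `{u, w}`, `{v, w'}` with `w ∉ X`,
`w' ∈ X`, `w ≠ w'`, `w ≠ v`, `w' ≠ u`; and `w` lies in another edge `{w, x}`, `x ≠ u`, different
from the three (it does not contain `u`, and it is not `{v, w'}` since `w ≠ v`, `w ≠ w'`).

`planar3` and `planar2` follow (`k = 3`, `k = 4`; for empty `H` they are trivial).
-/

namespace Pool.Agent.Helper79.HB

open Finset Pool.Agent.Helper79.HX

private theorem other32 {z : Finset (Finset ℕ)}
    (hev : ∀ v, Even ((z.filter (fun e => v ∈ e)).card)) {e : Finset ℕ} (he : e ∈ z) {v : ℕ}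
    (hv : v ∈ e) : ∃ e' ∈ z, e' ≠ e ∧ v ∈ e' := by
  have h1 : e ∈ z.filter (fun e => v ∈ e) := Finset.mem_filter.2 ⟨he, hv⟩
  have h2 : 1 < (z.filter (fun e => v ∈ e)).card := by
    have h3 : 0 < (z.filter (fun e => v ∈ e)).card := Finset.card_pos.2 ⟨e, h1⟩
    obtain ⟨r, hr⟩ := hev v
    omega
  obtain ⟨e', he', hne⟩ := Finset.exists_mem_ne h2 e
  exact ⟨e', (Finset.mem_filter.1 he').1, hne, (Finset.mem_filter.1 he').2⟩

private theorem pair_eq32 {e : Finset ℕ} (he : e.card = 2) {u v : ℕ} (huv : u ≠ v) (hu : u ∈ e)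
    (hv : v ∈ e) : e = {u, v} := by
  symm
  apply Finset.eq_of_subset_of_card_le
  · intro x hx
    rw [Finset.mem_insert, Finset.mem_singleton] at hx
    rcases hx with rfl | rfl <;> assumption
  · rw [he, Finset.card_pair huv]

private theorem card_two_edges32 {T : Finset (Finset ℕ)} {e : Finset ℕ} (he : e ∈ edges T) :
    e.card = 2 := by
  obtain ⟨t, _, _, h⟩ := mem_edges.1 he
  exact h

theorem euler_ineq {T H : Finset (Finset ℕ)} (hS : IsSphere T) (hH : H ⊆ edges T)
    (hne : H.Nonempty) {k : ℕ}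
    (hk : ∀ z ⊆ H, z.Nonempty → (∀ v, Even ((z.filter (fun e => v ∈ e)).card)) → k ≤ z.card) :
    H.card + 1 ≤ (H.biUnion id).card ∨
      k * H.card + 2 * k ≤ k * (H.biUnion id).card + 2 * H.card := by
  classical
  have hf : ∀ g ∈ reg T H, (M2 T).mulVecLin g ∈ cyc T H := by
    intro g hg
    refine ⟨?_, fun e he => ?_⟩
    · rw [Matrix.mulVecLin_apply, Matrix.mulVec_mulVec, comp_zero hS, Matrix.zero_mulVec]
    · rw [Matrix.mulVecLin_apply]
      exact hg e he
  set f : reg T H →ₗ[ZMod 2] cyc T H := (M2 T).mulVecLin.restrict hf with hfdef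
  have hfapp : ∀ g : reg T H, ((f g : cyc T H) : edges T → ZMod 2) = (M2 T).mulVec g.1 :=
    fun g => rfl
  have hsurj : LinearMap.range f = ⊤ := by
    rw [LinearMap.range_eq_top]
    intro z
    obtain ⟨g, hg⟩ := exact hS z.1 z.2.1
    refine ⟨⟨g, fun e he => ?_⟩, Subtype.ext ?_⟩
    · rw [hg]
      exact z.2.2 e he
    · rw [hfapp]
      exact hg
  have hone : (M2 T).mulVec (fun _ => (1 : ZMod 2)) = 0 := by
    funext e
    have h1 : (M2 T).mulVec (fun _ => (1 : ZMod 2)) e =
        ∑ u : T, if (e : Finset ℕ) ⊆ (u : Finset ℕ) then (1 : ZMod 2) else 0 := by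
      show ∑ u : T, (if (e : Finset ℕ) ⊆ (u : Finset ℕ) then (1 : ZMod 2) else 0) * 1 = _
      refine Finset.sum_congr rfl fun u _ => ?_
      rw [mul_one]
    have h2 : ∑ u : T, (if (e : Finset ℕ) ⊆ (u : Finset ℕ) then (1 : ZMod 2) else 0) =
        ∑ u ∈ T, if (e : Finset ℕ) ⊆ u then (1 : ZMod 2) else 0 :=
      Finset.sum_coe_sort T (fun u => if (e : Finset ℕ) ⊆ u then (1 : ZMod 2) else 0)
    rw [h1, h2, Finset.sum_boole, edge_two hS e.2]
    rfl
  have hmem : (fun _ => (1 : ZMod 2)) ∈ reg T H := by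
    intro e _
    rw [hone]
    rfl
  have hTne : ∃ t, t ∈ T := by
    obtain ⟨e, he⟩ := hne
    obtain ⟨t, ht, _⟩ := mem_edges.1 (hH he)
    exact ⟨t, ht⟩
  obtain ⟨t, ht⟩ := hTne
  have hker : 1 ≤ Module.finrank (ZMod 2) (LinearMap.ker f) := by
    rw [Nat.one_le_iff_ne_zero, Ne, Submodule.finrank_eq_zero]
    intro hbot
    have h1 : (⟨fun _ => (1 : ZMod 2), hmem⟩ : reg T H) ∈ LinearMap.ker f := by
      rw [LinearMap.mem_ker]
      apply Subtype.ext
      rw [hfapp]
      exact hone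
    rw [hbot, Submodule.mem_bot] at h1
    have h2 := congrFun (congrArg Subtype.val h1) ⟨t, ht⟩
    exact one_ne_zero h2
  have hdim := LinearMap.finrank_range_add_finrank_ker f
  rw [hsurj, finrank_top] at hdim
  have hc := dim_cyc hH hne
  have h3 : H.card + 2 ≤ (H.biUnion id).card + Module.finrank (ZMod 2) (reg T H) := by omega
  rcases dim_reg hS hH (comp_zero hS) hk with h4 | h4
  · left
    omega
  · right
    have h5 := Nat.mul_le_mul_left k h3
    rw [Nat.mul_add, Nat.mul_add] at h5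
    omega

theorem girth3 {z : Finset (Finset ℕ)} (hz : ∀ e ∈ z, e.card = 2) (hne : z.Nonempty)
    (hev : ∀ v, Even ((z.filter (fun e => v ∈ e)).card)) : 3 ≤ z.card := by
  obtain ⟨e, he⟩ := hne
  obtain ⟨u, v, huv, hE⟩ := Finset.card_eq_two.1 (hz e he)
  have hu : u ∈ e := by rw [hE]; simp
  have hv : v ∈ e := by rw [hE]; simp
  obtain ⟨e1, h1, n1, m1⟩ := other32 hev he hu
  obtain ⟨e2, h2, n2, m2⟩ := other32 hev he hv
  have h12 : e1 ≠ e2 := by
    rintro rfl
    exact n1 ((pair_eq32 (hz _ h1) huv m1 m2).trans hE.symm)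
  have h3 : ({e, e1, e2} : Finset (Finset ℕ)).card = 3 :=
    Finset.card_eq_three.2 ⟨e, e1, e2, n1.symm, n2.symm, h12, rfl⟩
  rw [← h3]
  apply Finset.card_le_card
  intro x hx
  simp only [Finset.mem_insert, Finset.mem_singleton] at hx
  rcases hx with rfl | rfl | rfl <;> assumption

theorem girth4 {z : Finset (Finset ℕ)} {X : Finset ℕ} (hz : ∀ e ∈ z, e.card = 2)
    (hX : ∀ e ∈ z, (e ∩ X).card = 1) (hne : z.Nonempty)
    (hev : ∀ v, Even ((z.filter (fun e => v ∈ e)).card)) : 4 ≤ z.card := by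
  have huniq : ∀ e ∈ z, ∀ x y, x ∈ e → x ∈ X → y ∈ e → y ∈ X → x = y := by
    intro e he x y hx hx' hy hy'
    have h := hX e he
    exact Finset.card_le_one.1 h.le x (Finset.mem_inter.2 ⟨hx, hx'⟩) y
      (Finset.mem_inter.2 ⟨hy, hy'⟩)
  obtain ⟨e, he⟩ := hne
  obtain ⟨u, hu⟩ := Finset.card_pos.1 (by rw [hX e he]; exact one_pos : 0 < (e ∩ X).card)
  obtain ⟨hue, huX⟩ := Finset.mem_inter.1 hu
  obtain ⟨v, hve, hvu⟩ := Finset.exists_mem_ne (by rw [hz e he]; norm_num : 1 < e.card) u
  have hE := pair_eq32 (hz e he) hvu.symm hue hve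
  have hvX : v ∉ X := fun h => hvu (huniq e he v u hve h hue huX)
  obtain ⟨e1, h1, n1, m1⟩ := other32 hev he hue
  obtain ⟨e2, h2, n2, m2⟩ := other32 hev he hve
  -- the other vertex of the first edge
  obtain ⟨w, hw1, hwu⟩ := Finset.exists_mem_ne (by rw [hz e1 h1]; norm_num : 1 < e1.card) u
  have hE1 := pair_eq32 (hz e1 h1) hwu.symm m1 hw1
  have hwX : w ∉ X := fun h => hwu (huniq e1 h1 w u hw1 h m1 huX)
  have hwv : w ≠ v := by
    rintro rfl
    exact n1 (hE1.trans hE.symm)
  -- the vertex in `X` of the second edge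
  obtain ⟨w', hw'⟩ := Finset.card_pos.1 (by rw [hX e2 h2]; exact one_pos : 0 < (e2 ∩ X).card)
  obtain ⟨hw'2, hw'X⟩ := Finset.mem_inter.1 hw'
  have hw'v : v ≠ w' := by
    rintro rfl
    exact hvX hw'X
  have hE2 := pair_eq32 (hz e2 h2) hw'v m2 hw'2
  have hww' : w ≠ w' := by
    rintro rfl
    exact hwX hw'X
  obtain ⟨e3, h3, n3, m3⟩ := other32 hev h1 hw1
  have h12 : e1 ≠ e2 := by
    rintro rfl
    exact n1 ((pair_eq32 (hz _ h1) hvu.symm m1 m2).trans hE.symm)
  have h30 : e3 ≠ e := by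
    rintro rfl
    rw [hE] at m3
    simp only [Finset.mem_insert, Finset.mem_singleton] at m3
    rcases m3 with h | h
    · exact hwu h
    · exact hwv h
  have h32 : e3 ≠ e2 := by
    rintro rfl
    rw [hE2] at m3
    simp only [Finset.mem_insert, Finset.mem_singleton] at m3
    rcases m3 with h | h
    · exact hwv h
    · exact hww' h
  have h4 : ({e, e1, e2, e3} : Finset (Finset ℕ)).card = 4 := by
    rw [Finset.card_insert_of_notMem, Finset.card_insert_of_notMem, Finset.card_pair h32.symm]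
    · simp only [Finset.mem_insert, Finset.mem_singleton, not_or]
      exact ⟨h12, n3.symm⟩
    · simp only [Finset.mem_insert, Finset.mem_singleton, not_or]
      exact ⟨n1.symm, n2.symm, h30.symm⟩
  rw [← h4]
  apply Finset.card_le_card
  intro x hx
  simp only [Finset.mem_insert, Finset.mem_singleton] at hx
  rcases hx with rfl | rfl | rfl | rfl <;> assumption

theorem planar3 {T H : Finset (Finset ℕ)} (hS : IsSphere T) (hH : H ⊆ edges T) :
    H.card + 1 ≤ (H.biUnion id).card ∨ H.card + 6 ≤ 3 * (H.biUnion id).card ∨ H = ∅ := by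
  rcases Finset.eq_empty_or_nonempty H with h | h
  · exact Or.inr (Or.inr h)
  · rcases euler_ineq (k := 3) hS hH h (fun z hz hne hev =>
      girth3 (fun e he => card_two_edges32 (hH (hz he))) hne hev) with h1 | h1
    · exact Or.inl h1
    · right
      left
      omega

theorem planar2 {T H : Finset (Finset ℕ)} {X : Finset ℕ} (hS : IsSphere T) (hH : H ⊆ edges T)
    (hX : ∀ e ∈ H, (e ∩ X).card = 1) : H.card ≤ 2 * (H.biUnion id).card := by
  rcases Finset.eq_empty_or_nonempty H with h | h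
  · rw [h]
    simp
  · rcases euler_ineq (k := 4) hS hH h (fun z hz hne hev =>
      girth4 (fun e he => card_two_edges32 (hH (hz he))) (fun e he => hX e (hz he)) hne hev)
      with h1 | h1
    · omega
    · omega

end Pool.Agent.Helper79.HB
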