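import Pool.Agent.Helper79.HB.B1

/-!
# BLOCK HB-7: counting large neighbours

`sum_Lam`: `∑_{u ∈ Lam} deg u` is the number of pairs `(u, e)`, `u ∈ Lam`, `u ∈ e ∈ edges T`
(`deg_eq`); an edge inside `Lam` is counted twice, an edge `{u, v}` with exactly one end `u` in
`Lam` once, and it is counted once in `ell T v` with `v ∉ Lam`.  (`∑_{v ∉ Lam} ell v` is the number
of edges with exactly one end in `Lam`.)

`ell_three`: for a vertex `v` of degree 3 with at least two large neighbours `a, b` (among its three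
neighbours `a, b, c`; the three triangles at `v` are `vab, vbc, vca`) the triangle `{v, a, b}`
contains the edge `{a, b} ∈ eLL T`.  So `ell T v ≤ 1 + (number of the triangles t ∋ v with
t.erase v ∈ eLL T)` (ell = 0, 1: trivial; ell = 2: one such triangle; ell = 3: three).
Sum over `v`: each `e ∈ eLL T` is contained in exactly two triangles (`edge_two`), and a triangle
`t ⊇ e` determines `v` (the vertex of `t` outside `e`); so the sum of the numbers of triangles
is at most `2 |eLL T|`.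
-/

namespace Pool.Agent.Helper79.HB

open Finset Pool.Agent.Helper79.HX

private theorem ex_pair68 (L : Finset ℕ) (a b v : ℕ) :
    (∃ u ∈ L, u ∈ ({a, b} : Finset ℕ) ∧ u ≠ v) ↔ (a ∈ L ∧ a ≠ v) ∨ (b ∈ L ∧ b ≠ v) := by
  constructor
  · rintro ⟨u, hu, hab, hv⟩
    simp only [Finset.mem_insert, Finset.mem_singleton] at hab
    rcases hab with rfl | rfl
    · exact Or.inl ⟨hu, hv⟩
    · exact Or.inr ⟨hu, hv⟩
  · rintro (⟨h1, h2⟩ | ⟨h1, h2⟩)
    · exact ⟨a, h1, by simp, h2⟩
    · exact ⟨b, h1, by simp, h2⟩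

theorem sum_Lam {T : Finset (Finset ℕ)} (hS : IsSphere T) :
    ∑ u ∈ Lam T, deg T u = 2 * (eLL T).card + ∑ v ∈ verts T \ Lam T, ell T v := by
  classical
  have h1 : ∑ u ∈ Lam T, deg T u =
      ∑ e ∈ edges T, ((Lam T).filter (fun u => u ∈ e)).card := by
    calc ∑ u ∈ Lam T, deg T u = ∑ u ∈ Lam T, ∑ e ∈ edges T, (if u ∈ e then 1 else 0) := by
          refine Finset.sum_congr rfl fun u hu => ?_
          rw [deg_eq hS (Finset.mem_filter.1 hu).1, Finset.card_filter]
      _ = ∑ e ∈ edges T, ∑ u ∈ Lam T, (if u ∈ e then 1 else 0) := Finset.sum_comm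
      _ = _ := Finset.sum_congr rfl fun e _ => (Finset.card_filter _ _).symm
  have h2 : ∑ v ∈ verts T \ Lam T, ell T v = ∑ e ∈ edges T,
      ((verts T \ Lam T).filter (fun v => v ∈ e ∧ ∃ u ∈ Lam T, u ∈ e ∧ u ≠ v)).card := by
    calc ∑ v ∈ verts T \ Lam T, ell T v = ∑ v ∈ verts T \ Lam T, ∑ e ∈ edges T,
          (if v ∈ e ∧ ∃ u ∈ Lam T, u ∈ e ∧ u ≠ v then 1 else 0) := by
          refine Finset.sum_congr rfl fun v _ => ?_
          rw [ell, Finset.card_filter]
      _ = ∑ e ∈ edges T, ∑ v ∈ verts T \ Lam T,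
          (if v ∈ e ∧ ∃ u ∈ Lam T, u ∈ e ∧ u ≠ v then 1 else 0) := Finset.sum_comm
      _ = _ := Finset.sum_congr rfl fun e _ => (Finset.card_filter _ _).symm
  have h3 : 2 * (eLL T).card = ∑ e ∈ edges T, 2 * (if e ⊆ Lam T then 1 else 0) := by
    rw [eLL, Finset.card_filter, Finset.mul_sum]
  rw [h1, h2, h3, ← Finset.sum_add_distrib]
  refine Finset.sum_congr rfl fun e he => ?_
  obtain ⟨t, ht, het, hc⟩ := mem_edges.1 he
  obtain ⟨a, b, hab, rfl⟩ := Finset.card_eq_two.1 hc
  have ha : a ∈ verts T := mem_verts.2 ⟨t, ht, het (by simp)⟩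
  have hb : b ∈ verts T := mem_verts.2 ⟨t, ht, het (by simp)⟩
  have e1 : (Lam T).filter (fun u => u ∈ ({a, b} : Finset ℕ)) =
      ({a, b} : Finset ℕ).filter (fun u => u ∈ Lam T) := by
    ext u
    simp only [Finset.mem_filter]
    exact ⟨fun h => ⟨h.2, h.1⟩, fun h => ⟨h.2, h.1⟩⟩
  have e2 : (verts T \ Lam T).filter (fun v => v ∈ ({a, b} : Finset ℕ) ∧
      ∃ u ∈ Lam T, u ∈ ({a, b} : Finset ℕ) ∧ u ≠ v) =
      ({a, b} : Finset ℕ).filter (fun v => v ∉ Lam T ∧
        ((a ∈ Lam T ∧ a ≠ v) ∨ (b ∈ Lam T ∧ b ≠ v))) := by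
    ext v
    simp only [Finset.mem_filter, ex_pair68, Finset.mem_sdiff]
    constructor
    · rintro ⟨⟨-, h1⟩, h2, h3⟩
      exact ⟨h2, h1, h3⟩
    · rintro ⟨h1, h2, h3⟩
      refine ⟨⟨?_, h2⟩, h1, h3⟩
      simp only [Finset.mem_insert, Finset.mem_singleton] at h1
      rcases h1 with rfl | rfl
      · exact ha
      · exact hb
  rw [e1, e2]
  by_cases hA : a ∈ Lam T <;> by_cases hB : b ∈ Lam T <;>
    simp [Finset.filter_insert, Finset.filter_singleton, hA, hB, hab, hab.symm,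
      Finset.insert_subset_iff]

/-- the neighbours of a vertex -/
private def nbr68 (T : Finset (Finset ℕ)) (v : ℕ) : Finset ℕ :=
  (verts T).filter (fun w => w ≠ v ∧ ({v, w} : Finset ℕ) ∈ edges T)

private theorem edges_eq68 (T : Finset (Finset ℕ)) (v : ℕ) :
    (edges T).filter (fun e => v ∈ e) = (nbr68 T v).image (fun w => ({v, w} : Finset ℕ)) := by
  ext e
  simp only [Finset.mem_filter, Finset.mem_image, nbr68]
  constructor
  · rintro ⟨he, hv⟩
    obtain ⟨t, ht, het, hc⟩ := mem_edges.1 he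
    obtain ⟨a, b, hab, rfl⟩ := Finset.card_eq_two.1 hc
    simp only [Finset.mem_insert, Finset.mem_singleton] at hv
    rcases hv with rfl | rfl
    · exact ⟨b, ⟨mem_verts.2 ⟨t, ht, het (by simp)⟩, hab.symm, he⟩, rfl⟩
    · refine ⟨a, ⟨mem_verts.2 ⟨t, ht, het (by simp)⟩, hab, ?_⟩, Finset.pair_comm _ _⟩
      rwa [Finset.pair_comm]
  · rintro ⟨w, ⟨hw, hwv, he⟩, rfl⟩
    exact ⟨he, by simp⟩

private theorem pair_inj68 {v a b : ℕ} (ha : a ≠ v) (h : ({v, a} : Finset ℕ) = {v, b}) : a = b := by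
  have h1 : a ∈ ({v, b} : Finset ℕ) := by
    rw [← h]
    simp
  simp only [Finset.mem_insert, Finset.mem_singleton] at h1
  exact h1.resolve_left ha

private theorem card_nbr68 {T : Finset (Finset ℕ)} (hS : IsSphere T) {v : ℕ} (hv : v ∈ verts T) :
    (nbr68 T v).card = deg T v := by
  rw [deg_eq hS hv, edges_eq68, Finset.card_image_of_injOn]
  intro a ha b _ h
  exact pair_inj68 (Finset.mem_filter.1 ha).2.1 h

private theorem ell_eq68 (T : Finset (Finset ℕ)) (v : ℕ) :
    ell T v = ((nbr68 T v).filter (fun w => w ∈ Lam T)).card := by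
  have h1 : (edges T).filter (fun e => v ∈ e ∧ ∃ u ∈ Lam T, u ∈ e ∧ u ≠ v) =
      ((nbr68 T v).filter (fun w => w ∈ Lam T)).image (fun w => ({v, w} : Finset ℕ)) := by
    rw [← Finset.filter_filter, edges_eq68]
    ext e
    simp only [Finset.mem_filter, Finset.mem_image]
    constructor
    · rintro ⟨⟨w, hw, rfl⟩, hu⟩
      rw [ex_pair68] at hu
      rcases hu with hu | hu
      · exact absurd rfl hu.2
      · exact ⟨w, ⟨hw, hu.1⟩, rfl⟩
    · rintro ⟨w, ⟨hw, hL⟩, rfl⟩
      exact ⟨⟨w, hw, rfl⟩, w, hL, by simp, (Finset.mem_filter.1 hw).2.1⟩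
  rw [ell, h1, Finset.card_image_of_injOn]
  intro a ha b _ h
  exact pair_inj68 (Finset.mem_filter.1 (Finset.mem_filter.1 ha).1).2.1 h

private theorem erase_inj68 {v : ℕ} {s t : Finset ℕ} (hs : v ∈ s) (ht : v ∈ t)
    (h : s.erase v = t.erase v) : s = t := by
  rw [← Finset.insert_erase hs, ← Finset.insert_erase ht, h]

/-- the pairs of neighbours of a vertex of degree three -/
private theorem link68 {T : Finset (Finset ℕ)} (hS : IsSphere T) {v : ℕ} (hv : v ∈ verts T)
    (hd : deg T v = 3) :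
    (T.filter (fun t => v ∈ t)).image (fun t => t.erase v) = (nbr68 T v).powersetCard 2 := by
  refine Finset.eq_of_subset_of_card_le ?_ ?_
  · intro P hP
    obtain ⟨t, ht, rfl⟩ := Finset.mem_image.1 hP
    obtain ⟨htT, hvt⟩ := Finset.mem_filter.1 ht
    rw [Finset.mem_powersetCard]
    refine ⟨fun w hw => ?_, ?_⟩
    · obtain ⟨h1, h2⟩ := Finset.mem_erase.1 hw
      refine Finset.mem_filter.2 ⟨mem_verts.2 ⟨t, htT, h2⟩, h1, mem_edges.2 ⟨t, htT, ?_, ?_⟩⟩
      · intro x hx
        simp only [Finset.mem_insert, Finset.mem_singleton] at hx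
        rcases hx with rfl | rfl
        · exact hvt
        · exact h2
      · exact Finset.card_pair h1.symm
    · rw [Finset.card_erase_of_mem hvt, hS.tri t htT]
  · rw [Finset.card_powersetCard, card_nbr68 hS hv, hd, Finset.card_image_of_injOn]
    · show 3 ≤ deg T v
      rw [hd]
    · intro s hs t ht h
      exact erase_inj68 (Finset.mem_filter.1 hs).2 (Finset.mem_filter.1 ht).2 h

private theorem choose_bd68 (k : ℕ) (hk : k ≤ 3) : k ≤ 1 + k.choose 2 := by
  interval_cases k <;> decide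

private theorem local68 {T : Finset (Finset ℕ)} (hS : IsSphere T) {v : ℕ} (hv : v ∈ verts T)
    (hd : deg T v = 3) :
    ell T v ≤ 1 + (T.filter (fun t => v ∈ t ∧ t.erase v ∈ eLL T)).card := by
  have h1 : ((nbr68 T v).filter (fun w => w ∈ Lam T)).powersetCard 2 ⊆
      (T.filter (fun t => v ∈ t ∧ t.erase v ∈ eLL T)).image (fun t => t.erase v) := by
    intro P hP
    obtain ⟨h1, h2⟩ := Finset.mem_powersetCard.1 hP
    have h3 : P ∈ (nbr68 T v).powersetCard 2 :=
      Finset.mem_powersetCard.2 ⟨h1.trans (Finset.filter_subset _ _), h2⟩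
    rw [← link68 hS hv hd] at h3
    obtain ⟨t, ht, rfl⟩ := Finset.mem_image.1 h3
    obtain ⟨htT, hvt⟩ := Finset.mem_filter.1 ht
    refine Finset.mem_image.2 ⟨t, Finset.mem_filter.2 ⟨htT, hvt, Finset.mem_filter.2 ⟨?_, ?_⟩⟩, rfl⟩
    · exact mem_edges.2 ⟨t, htT, Finset.erase_subset _ _, h2⟩
    · intro w hw
      exact (Finset.mem_filter.1 (h1 hw)).2
  have h2 := (Finset.card_le_card h1).trans Finset.card_image_le
  rw [Finset.card_powersetCard] at h2
  have h3 : ((nbr68 T v).filter (fun w => w ∈ Lam T)).card ≤ 3 := by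
    rw [← hd, ← card_nbr68 hS hv]
    exact Finset.card_filter_le _ _
  rw [ell_eq68]
  have h4 := choose_bd68 _ h3
  omega

theorem ell_three {T : Finset (Finset ℕ)} (hS : IsSphere T) :
    ∑ v ∈ (verts T).filter (fun v => deg T v = 3), ell T v ≤
      ((verts T).filter (fun v => deg T v = 3)).card + 2 * (eLL T).card := by
  classical
  obtain ⟨V3, hV3⟩ : ∃ V3, V3 = (verts T).filter (fun v => deg T v = 3) := ⟨_, rfl⟩
  rw [← hV3]
  have h1 : ∑ v ∈ V3, ell T v ≤
      ∑ v ∈ V3, (1 + (T.filter (fun t => v ∈ t ∧ t.erase v ∈ eLL T)).card) := by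
    refine Finset.sum_le_sum fun v hv => ?_
    rw [hV3] at hv
    obtain ⟨hv1, hv2⟩ := Finset.mem_filter.1 hv
    exact local68 hS hv1 hv2
  refine h1.trans ?_
  rw [Finset.sum_add_distrib, Finset.sum_const, smul_eq_mul, mul_one]
  refine Nat.add_le_add_left ?_ _
  calc ∑ v ∈ V3, (T.filter (fun t => v ∈ t ∧ t.erase v ∈ eLL T)).card
      = ∑ v ∈ V3, ∑ t ∈ T, (if v ∈ t ∧ t.erase v ∈ eLL T then 1 else 0) :=
        Finset.sum_congr rfl fun v _ => Finset.card_filter _ _
    _ = ∑ t ∈ T, ∑ v ∈ V3, (if v ∈ t ∧ t.erase v ∈ eLL T then 1 else 0) := Finset.sum_comm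
    _ = ∑ t ∈ T, (V3.filter (fun v => v ∈ t ∧ t.erase v ∈ eLL T)).card :=
        Finset.sum_congr rfl fun t _ => (Finset.card_filter _ _).symm
    _ ≤ ∑ t ∈ T, ((eLL T).filter (fun e => e ⊆ t)).card := by
        refine Finset.sum_le_sum fun t _ => ?_
        refine Finset.card_le_card_of_injOn (fun v => t.erase v) ?_ ?_
        · intro v hv
          have hv' := (Finset.mem_filter.1 hv).2
          exact Finset.mem_filter.2 ⟨hv'.2, Finset.erase_subset _ _⟩
        · intro v hv w hw h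
          have hv' := (Finset.mem_filter.1 hv).2
          by_contra hne
          have h2 : v ∈ t.erase w := Finset.mem_erase.2 ⟨hne, hv'.1⟩
          have h3 : v ∈ t.erase v := by
            have h4 : t.erase v = t.erase w := h
            rw [h4]
            exact h2
          exact absurd h3 (Finset.notMem_erase v t)
    _ = ∑ t ∈ T, ∑ e ∈ eLL T, (if e ⊆ t then 1 else 0) :=
        Finset.sum_congr rfl fun t _ => Finset.card_filter _ _
    _ = ∑ e ∈ eLL T, ∑ t ∈ T, (if e ⊆ t then 1 else 0) := Finset.sum_comm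
    _ = ∑ e ∈ eLL T, 2 := by
        refine Finset.sum_congr rfl fun e he => ?_
        rw [← Finset.card_filter]
        exact edge_two hS (Finset.mem_filter.1 he).1
    _ = 2 * (eLL T).card := by
        rw [Finset.sum_const, smul_eq_mul, mul_comm]

end Pool.Agent.Helper79.HB
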