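import Pool.Agent.Helper79.HB.B6
import Pool.Agent.Helper79.HB.B7

/-!
# BLOCK HB-8: the lower bound

`sum_X`: let `X'` be the set of `v ∈ X` with `ell T v ≥ 3` and `H` the set of the edges `e` with
exactly one end in `X'` and the other end in `Lam T`.  `X' ∩ Lam T = ∅`, so `|H| = ∑_{X'} ell v`
and `(e ∩ X').card = 1` for `e ∈ H`; `H.biUnion id ⊆ X' ∪ Lam T`.  By `planar2`,
`∑_{X'} ell v ≤ 2 |X'| + 2 |Lam T|`; the other `v ∈ X` have `ell v ≤ 2`.

`eLL_le`: `planar3` for `H = eLL T` (its vertices are in `Lam T`); `|Lam T| = 0` is excluded.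
(If `eLL T` is empty it is trivial; in the first case `|eLL| + 1 ≤ |Lam|`.)

`lower_bound`: by `sum_six_sub`, `∑_{u ∈ Lam} (deg u - 6) = ∑_{v ∉ Lam} (6 - deg v) - 12
= 3 p3 + 2 p4 + p5 - 12` where all vertices have degree at least 3 (`hdeg`; this is true in every
sphere, it is the hypothesis here), so by `sum_Lam`
`∑_{v ∉ Lam} ell v = 6 m + 3 p3 + 2 p4 + p5 - 12 - 2 e`, `e = |eLL T|`, `m = |Lam T|`.
On the other hand `∑_{v ∉ Lam} ell v ≤ (p3 + 2 e) + (2 (p4 + p5 + n) + 2 m)` by `ell_three` and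
`sum_X` (X = vertices of degree 4, 5, 6).  So `2 p3 ≤ p5 + 2 n + 4 e - 4 m + 12`, and `eLL_le` gives
`4 e - 4 m + 12 ≤ 8 m`: this is `e ≤ 3 m - 3`.
-/

namespace Pool.Agent.Helper79.HB

open Finset Pool.Agent.Helper79.HX

theorem sum_X {T : Finset (Finset ℕ)} (hS : IsSphere T) {X : Finset ℕ} (hX : X ⊆ verts T)
    (hd : Disjoint X (Lam T)) : ∑ v ∈ X, ell T v ≤ 2 * X.card + 2 * (Lam T).card := by
  classical
  obtain ⟨X', hX'⟩ : ∃ X', X' = X.filter (fun v => 3 ≤ ell T v) := ⟨_, rfl⟩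
  obtain ⟨E, hE⟩ : ∃ E : ℕ → Finset (Finset ℕ),
    E = fun v => (edges T).filter (fun e => v ∈ e ∧ ∃ u ∈ Lam T, u ∈ e ∧ u ≠ v) := ⟨_, rfl⟩
  have hXs : X' ⊆ X := by rw [hX']; exact Finset.filter_subset _ _
  have hdis : ∀ v ∈ X', v ∉ Lam T := fun v hv => Finset.disjoint_left.1 hd (hXs hv)
  have key : ∀ v ∈ X', ∀ e ∈ E v, e ∈ edges T ∧ ∃ u ∈ Lam T, e = {v, u} ∧ e ∩ X' = {v} := by
    intro v hv e he
    rw [hE] at he
    obtain ⟨he1, hve, u, hu, hue, huv⟩ := Finset.mem_filter.1 he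
    obtain ⟨t, ht, het, hc⟩ := mem_edges.1 he1
    have h1 : e = {v, u} := by
      symm
      refine Finset.eq_of_subset_of_card_le ?_ ?_
      · intro x hx
        simp only [Finset.mem_insert, Finset.mem_singleton] at hx
        rcases hx with rfl | rfl
        · exact hve
        · exact hue
      · rw [hc, Finset.card_pair huv.symm]
    refine ⟨he1, u, hu, h1, ?_⟩
    ext x
    simp only [Finset.mem_inter, Finset.mem_singleton, h1, Finset.mem_insert]
    constructor
    · rintro ⟨rfl | rfl, hx⟩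
      · rfl
      · exact absurd hu (hdis _ hx)
    · rintro rfl
      exact ⟨Or.inl rfl, hv⟩
  obtain ⟨H, hH⟩ : ∃ H, H = X'.biUnion E := ⟨_, rfl⟩
  have hH1 : H ⊆ edges T := by
    intro e he
    rw [hH] at he
    obtain ⟨v, hv, he⟩ := Finset.mem_biUnion.1 he
    exact (key v hv e he).1
  have hH2 : ∀ e ∈ H, (e ∩ X').card = 1 := by
    intro e he
    rw [hH] at he
    obtain ⟨v, hv, he⟩ := Finset.mem_biUnion.1 he
    obtain ⟨-, u, -, -, h⟩ := key v hv e he
    rw [h, Finset.card_singleton]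
  have hH3 : H.biUnion id ⊆ X' ∪ Lam T := by
    intro x hx
    obtain ⟨e, he, hxe⟩ := Finset.mem_biUnion.1 hx
    rw [hH] at he
    obtain ⟨v, hv, he⟩ := Finset.mem_biUnion.1 he
    obtain ⟨-, u, hu, h, -⟩ := key v hv e he
    have hxe' : x ∈ e := hxe
    rw [h] at hxe'
    simp only [Finset.mem_insert, Finset.mem_singleton] at hxe'
    rcases hxe' with rfl | rfl
    · exact Finset.mem_union_left _ hv
    · exact Finset.mem_union_right _ hu
  have hH4 : H.card = ∑ v ∈ X', ell T v := by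
    rw [hH, Finset.card_biUnion]
    · refine Finset.sum_congr rfl fun v _ => ?_
      rw [ell, hE]
    · intro v hv w hw hvw
      rw [Function.onFun, Finset.disjoint_left]
      intro e hev hew
      obtain ⟨-, -, -, -, h1⟩ := key v hv e hev
      obtain ⟨-, -, -, -, h2⟩ := key w hw e hew
      rw [h1] at h2
      exact hvw (Finset.singleton_injective h2)
  have hp := planar2 hS hH1 hH2
  have hc : (H.biUnion id).card ≤ X'.card + (Lam T).card :=
    (Finset.card_le_card hH3).trans (Finset.card_union_le _ _)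
  have hsplit : ∑ v ∈ X, ell T v = ∑ v ∈ X', ell T v + ∑ v ∈ X \ X', ell T v := by
    rw [add_comm]
    exact (Finset.sum_sdiff hXs).symm
  have hr : ∑ v ∈ X \ X', ell T v ≤ ∑ v ∈ X \ X', 2 := by
    refine Finset.sum_le_sum fun v hv => ?_
    obtain ⟨h1, h2⟩ := Finset.mem_sdiff.1 hv
    by_contra h3
    refine h2 ?_
    rw [hX']
    exact Finset.mem_filter.2 ⟨h1, by omega⟩
  rw [Finset.sum_const, smul_eq_mul] at hr
  have hcs : (X \ X').card + X'.card = X.card := Finset.card_sdiff_add_card_eq_card hXs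
  rw [hsplit, ← hH4]
  omega

theorem eLL_le {T : Finset (Finset ℕ)} (hS : IsSphere T) (hne : (Lam T).Nonempty) :
    (eLL T).card + 3 ≤ 3 * (Lam T).card := by
  have hH : eLL T ⊆ edges T := Finset.filter_subset _ _
  have hV : (eLL T).biUnion id ⊆ Lam T := by
    intro x hx
    obtain ⟨e, he, hxe⟩ := Finset.mem_biUnion.1 hx
    exact (Finset.mem_filter.1 he).2 hxe
  have hc := Finset.card_le_card hV
  have hpos := hne.card_pos
  rcases planar3 hS hH with h | h | h
  · omega
  · omega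
  · rw [h, Finset.card_empty]
    omega

theorem lower_bound {T : Finset (Finset ℕ)} (hS : IsSphere T) (hne : (Lam T).Nonempty)
    (hdeg : ∀ v ∈ verts T, 3 ≤ deg T v) :
    2 * ((verts T).filter (fun v => deg T v = 3)).card ≤
      ((verts T).filter (fun v => deg T v = 5)).card +
      2 * ((verts T).filter (fun v => deg T v = 6)).card + 8 * (Lam T).card := by
  classical
  have hsum := sum_six_sub hS
  have hL := sum_Lam hS
  have h3 := ell_three hS
  have he := eLL_le hS hne
  obtain ⟨V3, hV3⟩ : ∃ V, V = (verts T).filter (fun v => deg T v = 3) := ⟨_, rfl⟩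
  obtain ⟨V4, hV4⟩ : ∃ V, V = (verts T).filter (fun v => deg T v = 4) := ⟨_, rfl⟩
  obtain ⟨V5, hV5⟩ : ∃ V, V = (verts T).filter (fun v => deg T v = 5) := ⟨_, rfl⟩
  obtain ⟨V6, hV6⟩ : ∃ V, V = (verts T).filter (fun v => deg T v = 6) := ⟨_, rfl⟩
  obtain ⟨X, hX⟩ : ∃ V, V = (verts T).filter (fun v => 4 ≤ deg T v ∧ deg T v ≤ 6) := ⟨_, rfl⟩
  have hXd : Disjoint X (Lam T) := by
    rw [Finset.disjoint_left]
    intro v h1 h2
    rw [hX] at h1
    have h1' := (Finset.mem_filter.1 h1).2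
    have h2' := (Finset.mem_filter.1 h2).2
    omega
  have hXX := sum_X hS (X := X) (by rw [hX]; exact Finset.filter_subset _ _) hXd
  rw [← hV3] at h3 ⊢
  rw [← hV5, ← hV6]
  have hXc : X.card = V4.card + V5.card + V6.card := by
    rw [hX, hV4, hV5, hV6, Finset.card_filter, Finset.card_filter, Finset.card_filter,
      Finset.card_filter, ← Finset.sum_add_distrib, ← Finset.sum_add_distrib]
    refine Finset.sum_congr rfl fun v _ => ?_
    split_ifs <;> omega
  have hpart : verts T \ Lam T = V3 ∪ X := by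
    ext v
    rw [hV3, hX]
    simp only [Lam, Finset.mem_sdiff, Finset.mem_filter, Finset.mem_union, not_and, not_le]
    constructor
    · rintro ⟨h1, h2⟩
      have h4 := hdeg v h1
      have h5 := h2 h1
      by_cases h6 : deg T v = 3
      · exact Or.inl ⟨h1, h6⟩
      · exact Or.inr ⟨h1, by omega, by omega⟩
    · rintro (⟨h1, h2⟩ | ⟨h1, h2, h4⟩)
      · exact ⟨h1, fun _ => by omega⟩
      · exact ⟨h1, fun _ => by omega⟩
  have hd3X : Disjoint V3 X := by
    rw [Finset.disjoint_left]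
    intro v h1 h2
    rw [hV3] at h1
    rw [hX] at h2
    have h1' := (Finset.mem_filter.1 h1).2
    have h2' := (Finset.mem_filter.1 h2).2
    omega
  rw [hpart, Finset.sum_union hd3X] at hL
  have hs : ∑ v ∈ verts T, ((6 : ℤ) - (deg T v : ℤ)) =
      3 * (V3.card : ℤ) + 2 * (V4.card : ℤ) + (V5.card : ℤ) + 6 * ((Lam T).card : ℤ) -
        ((∑ u ∈ Lam T, deg T u : ℕ) : ℤ) := by
    have e1 : ∀ v ∈ verts T, ((6 : ℤ) - (deg T v : ℤ)) =
        3 * (if deg T v = 3 then (1 : ℤ) else 0) + 2 * (if deg T v = 4 then (1 : ℤ) else 0) +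
          (if deg T v = 5 then (1 : ℤ) else 0) + 6 * (if 7 ≤ deg T v then (1 : ℤ) else 0) -
          (if 7 ≤ deg T v then (deg T v : ℤ) else 0) := by
      intro v hv
      have h4 := hdeg v hv
      by_cases h7 : 7 ≤ deg T v
      · rw [if_neg (by omega), if_neg (by omega), if_neg (by omega), if_pos h7, if_pos h7]
        ring
      · rw [if_neg h7, if_neg h7]
        obtain ⟨k, hk⟩ : ∃ k, k = deg T v := ⟨_, rfl⟩
        rw [← hk] at h4 h7 ⊢
        have h8 : k ≤ 6 := by omega
        interval_cases k <;> norm_num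
    rw [Finset.sum_congr rfl e1, Finset.sum_sub_distrib, Finset.sum_add_distrib,
      Finset.sum_add_distrib, Finset.sum_add_distrib, ← Finset.mul_sum, ← Finset.mul_sum,
      ← Finset.mul_sum, hV3, hV4, hV5, Lam, Finset.card_filter, Finset.card_filter,
      Finset.card_filter, Finset.card_filter, Finset.sum_filter]
    push_cast
    rfl
  rw [hs] at hsum
  omega

end Pool.Agent.Helper79.HB
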