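import Pool.Agent.Helper79.HX.Count

/-!
# The chain complex modulo 2 of a triangulated sphere: definitions
-/

namespace Pool.Agent.Helper79.HB

open Finset Pool.Agent.Helper79.HX

/-- The edges of a triangulated sphere. -/
def edges (T : Finset (Finset ℕ)) : Finset (Finset ℕ) := T.biUnion (fun t => t.powersetCard 2)

theorem mem_edges {T : Finset (Finset ℕ)} {e : Finset ℕ} :
    e ∈ edges T ↔ ∃ t ∈ T, e ⊆ t ∧ e.card = 2 := by
  simp [edges, Finset.mem_powersetCard]

/-- The incidence matrix of vertices and edges. -/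
def M1 (T : Finset (Finset ℕ)) : Matrix (verts T) (edges T) (ZMod 2) :=
  Matrix.of fun v e => if (v : ℕ) ∈ (e : Finset ℕ) then 1 else 0

/-- The incidence matrix of edges and triangles. -/
def M2 (T : Finset (Finset ℕ)) : Matrix (edges T) T (ZMod 2) :=
  Matrix.of fun e t => if (e : Finset ℕ) ⊆ (t : Finset ℕ) then 1 else 0

/-- The large vertices. -/
def Lam (T : Finset (Finset ℕ)) : Finset ℕ := (verts T).filter (fun v => 7 ≤ deg T v)

/-- The number of large neighbours of `v`. -/
def ell (T : Finset (Finset ℕ)) (v : ℕ) : ℕ :=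
  ((edges T).filter (fun e => v ∈ e ∧ ∃ u ∈ Lam T, u ∈ e ∧ u ≠ v)).card

/-- The edges between two large vertices. -/
def eLL (T : Finset (Finset ℕ)) : Finset (Finset ℕ) := (edges T).filter (fun e => e ⊆ Lam T)

end Pool.Agent.Helper79.HB
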